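import Pool.Agent.helper39.Transport

set_option autoImplicit false

namespace Pool.Agent.Results.MP_df00b4_an.NonSeparable

open Pool.Agent.helper39 Pool.Agent.helper39.MT

universe w z

/-- There are a separable Hilbert space `H` and a norm closed star subalgebra `A` of the bounded
operators on `H` which is not norm separable although its minimal tensor square is hereditary. -/
theorem result : ∃ (H : Type) (_ : NormedAddCommGroup H) (_ : InnerProductSpace ℂ H)
    (_ : CompleteSpace H) (_ : TopologicalSpace.SeparableSpace H) (A : StarSubalgebra ℂ (H →L[ℂ] H)),
    IsNonSeparableWithHereditarySquare.{0, w, z} A :=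
  ⟨E XX, inferInstance, inferInstance, inferInstance, separable_E, AA, isNonSeparable⟩

end Pool.Agent.Results.MP_df00b4_an.NonSeparable
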